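import Pool.Agent.R677.UI.NilBdd

/-!
# Unbounded torsion ui-groups that are bounded-by-nilpotent or nilpotent-by-bounded
-/

set_option autoImplicit false

namespace Pool.Agent.Results.MP_70ec2f_al.DivisibleNilpotentBounded

universe u v

/-- `G` is a ui-group: there are groups `H i`, a nonprincipal ultrafilter `U` on `ℕ` and a
surjective homomorphism from the direct product of the `H i` onto `G` which is trivial on all
sequences that are trivial on a set of `U`; that is, `G` is a homomorphic image of the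
ultraproduct of the `H i`. -/
def IsUI (G : Type u) [Group G] : Prop :=
  ∃ (H : ℕ → Type v) (_ : ∀ i, Group (H i)) (U : Ultrafilter ℕ) (f : (∀ i, H i) →* G),
    (∀ n, U ≠ pure n) ∧ Function.Surjective f ∧ ∀ h : ∀ i, H i, {i | h i = 1} ∈ U → f h = 1

/-- `G` is a torsion group and not of bounded exponent. -/
def UnboundedTorsion (G : Type u) [Group G] : Prop :=
  (∀ g : G, ∃ n : ℕ, 1 ≤ n ∧ g ^ n = 1) ∧ ∀ n : ℕ, 1 ≤ n → ∃ g : G, g ^ n ≠ 1

/-- The subgroup `D` is divisible. -/
def IsDivisible {G : Type u} [Group G] (D : Subgroup G) : Prop :=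
  ∀ d ∈ D, ∀ n : ℕ, 1 ≤ n → ∃ x ∈ D, x ^ n = d

/-- `G` has a normal subgroup of bounded exponent with nilpotent quotient. -/
def BoundedByNilpotent (G : Type u) [Group G] : Prop :=
  ∃ (K : Subgroup G) (_ : K.Normal) (e : ℕ), 1 ≤ e ∧ (∀ k ∈ K, k ^ e = 1) ∧
    Group.IsNilpotent (G ⧸ K)

/-- `G` has a nilpotent normal subgroup such that the quotient has bounded exponent. -/
def NilpotentByBounded (G : Type u) [Group G] : Prop :=
  ∃ (N : Subgroup G) (_ : N.Normal) (e : ℕ), 1 ≤ e ∧ (∀ g : G, g ^ e ∈ N) ∧ Group.IsNilpotent N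

open Pool.Agent.R677.UI in
/-- An unbounded torsion ui-group which is bounded-by-nilpotent or nilpotent-by-bounded contains a
nontrivial divisible subgroup. -/
theorem result (G : Type u) [Group G] (hui : IsUI.{u, v} G) (ht : UnboundedTorsion G)
    (h : BoundedByNilpotent G ∨ NilpotentByBounded G) :
    ∃ D : Subgroup G, D ≠ ⊥ ∧ IsDivisible D := by
  obtain ⟨H, _, U, f, hU, hf, hker⟩ := hui
  rcases h with ⟨K, _, e, he, hK, hnil⟩ | ⟨N, _, e, he, hN, hnil⟩
  · exact main_bn f hf U hU hker ht.1 ht.2 K e he hK hnil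
  · exact main_nb f hf U hU hker ht.1 ht.2 N hnil e he hN

end Pool.Agent.Results.MP_70ec2f_al.DivisibleNilpotentBounded
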